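import Pool.Agent.Helper19.PU.Defs

/-!
# Project PU, piece PU-3
-/

open MeasureTheory Set Metric Filter Module
open scoped NNReal Topology RealInnerProductSpace ENNReal Real ContDiff Manifold

namespace Pool.Agent.Helper19.PU

variable {E : Type*} [NormedAddCommGroup E] [InnerProductSpace ℝ E]

private lemma p3_inner (a x : E) : HasFDerivAt (fun y : E => ⟪a, y⟫) (innerSL ℝ a) x :=
  (innerSL ℝ a).hasFDerivAt

private lemma p3_Dm (a x : E) (μ : ℝ) : HasFDerivAt (Dm a μ) ((1 - μ ^ 2) • innerSL ℝ a) x := by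
  have h := ((p3_inner a x).const_add 1).add
    (((p3_inner a x).const_sub 1).const_mul (μ ^ 2))
  refine h.congr_fderiv ?_
  ext δ
  simp
  ring

private lemma p3_Nm (J : E →L[ℝ] E) (a x : E) (μ : ℝ) :
    HasFDerivAt (Nm J a μ) (dN J a μ x) x := by
  have h1 : HasFDerivAt (fun y : E => (1 - μ) * ((1 + ⟪a, y⟫) + μ * (1 - ⟪a, y⟫)))
      ((1 - μ) • (innerSL ℝ a + μ • -(innerSL ℝ a))) x :=
    ((((p3_inner a x).const_add 1).add (((p3_inner a x).const_sub 1).const_mul μ)).const_mul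
      (1 - μ))
  have h2 : HasFDerivAt (fun y : E => (2 * μ) • J y) ((2 * μ) • J) x :=
    J.hasFDerivAt.const_smul (2 * μ)
  have h3 : HasFDerivAt (fun y : E => (1 - μ) * ⟪J a, y⟫) ((1 - μ) • innerSL ℝ (J a)) x :=
    (p3_inner (J a) x).const_mul (1 - μ)
  have h4 : HasFDerivAt (fun y : E => (1 - μ) • a + (1 + μ) • y)
      ((1 + μ) • ContinuousLinearMap.id ℝ E) x :=
    ((hasFDerivAt_id x).const_smul (1 + μ)).const_add _
  have h := ((h1.smul_const (J a)).add h2).sub (h3.smul h4)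
  refine h.congr_fderiv ?_
  ext δ
  simp only [dN, add_apply, sub_apply,
    ContinuousLinearMap.smulRight_apply, smul_apply, innerSL_apply_apply,
    neg_apply, smul_eq_mul, ContinuousLinearMap.id_apply]
  module

theorem hasFDerivAt_Wm (J : E →L[ℝ] E) (a x : E) (μ : ℝ) (hD : Dm a μ x ≠ 0) :
    HasFDerivAt (Wm J a μ) (dW J a μ x) x := by
  have h0 : HasFDerivAt (fun y => (Dm a μ y)⁻¹)
      ((-(Dm a μ x ^ 2)⁻¹) • ((1 - μ ^ 2) • innerSL ℝ a)) x :=
    (hasDerivAt_inv hD).comp_hasFDerivAt x (p3_Dm a x μ)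
  have h := h0.smul (p3_Nm J a x μ)
  refine h.congr_fderiv ?_
  ext δ
  simp only [dW, add_apply, sub_apply,
    ContinuousLinearMap.smulRight_apply, smul_apply, innerSL_apply_apply,
    neg_apply, smul_eq_mul]
  module

theorem contMDiff_Wm [FiniteDimensional ℝ E] {n : ℕ} [Fact (finrank ℝ E = n + 1)]
    (J : E →L[ℝ] E) {a : E} (ha : ‖a‖ = 1) {μ : ℝ} (hμ : μ ≠ 0) :
    ContMDiff (𝓡 n) 𝓘(ℝ, E) ∞ (fun x : sphere (0 : E) 1 => Wm J a μ (x : E)) := by
  intro x
  have hx : ‖(x : E)‖ = 1 := norm_eq_of_mem_sphere x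
  have hD : Dm a μ (x : E) ≠ 0 := by
    have h1 : |⟪a, (x : E)⟫| ≤ 1 := by
      have := abs_real_inner_le_norm a (x : E)
      rwa [ha, hx, mul_one] at this
    have h2 := abs_le.mp h1
    have h3 : 0 < μ ^ 2 := by positivity
    unfold Dm
    rcases eq_or_lt_of_le (show 0 ≤ 1 + ⟪a, (x : E)⟫ by linarith) with h4 | h4
    · have h5 : 1 - ⟪a, (x : E)⟫ = 2 := by linarith
      rw [← h4, h5]
      positivity
    · have h5 : 0 ≤ μ ^ 2 * (1 - ⟪a, (x : E)⟫) := mul_nonneg h3.le (by linarith)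
      linarith
  have hW : ContDiffAt ℝ ∞ (Wm J a μ) (x : E) := by
    have hin : ∀ c : E, ContDiffAt ℝ ∞ (fun y : E => ⟪c, y⟫) (x : E) := fun c =>
      (innerSL ℝ c).contDiff.contDiffAt
    have hDm : ContDiffAt ℝ ∞ (Dm a μ) (x : E) :=
      (contDiffAt_const.add (hin a)).add (contDiffAt_const.mul (contDiffAt_const.sub (hin a)))
    have hNm : ContDiffAt ℝ ∞ (Nm J a μ) (x : E) := by
      have h1 : ContDiffAt ℝ ∞ (fun y : E => ((1 - μ) * ((1 + ⟪a, y⟫) + μ * (1 - ⟪a, y⟫))) • J a)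
          (x : E) :=
        (contDiffAt_const.mul ((contDiffAt_const.add (hin a)).add
          (contDiffAt_const.mul (contDiffAt_const.sub (hin a))))).smul contDiffAt_const
      have h2 : ContDiffAt ℝ ∞ (fun y : E => (2 * μ) • J y) (x : E) :=
        contDiffAt_const.smul J.contDiff.contDiffAt
      have h3 : ContDiffAt ℝ ∞ (fun y : E => ((1 - μ) * ⟪J a, y⟫) • ((1 - μ) • a + (1 + μ) • y))
          (x : E) :=
        (contDiffAt_const.mul (hin (J a))).smul
          (contDiffAt_const.add (contDiffAt_const.smul contDiffAt_id))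
      exact (h1.add h2).sub h3
    exact (hDm.inv hD).smul hNm
  exact hW.contMDiffAt.comp x (contMDiff_coe_sphere x)

end Pool.Agent.Helper19.PU
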